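import Mathlib
import Pool.Agent.X89.QN5

set_option autoImplicit false

open Quaternion

namespace Pool.Agent.Results.MP_dceaed_al.Classification

/-- An involution of the real quaternions: a real-linear anti-multiplicative map of order two. -/
def IsInvolution (φ : ℍ[ℝ] →ₗ[ℝ] ℍ[ℝ]) : Prop :=
  (∀ x y, φ (x * y) = φ y * φ x) ∧ ∀ x, φ (φ x) = x

/-- The set of columns `x` of height `n` with `x_φ x = α`. -/
def sphere {n : ℕ} (φ : ℍ[ℝ] →ₗ[ℝ] ℍ[ℝ]) (α : ℍ[ℝ]) : Set (Fin n → ℍ[ℝ]) :=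
  {x | ∑ i, φ (x i) * x i = α}

/-- The numerical range `{x_φ A x : x_φ x = α}`. -/
def numRange {n : ℕ} (φ : ℍ[ℝ] →ₗ[ℝ] ℍ[ℝ]) (α : ℍ[ℝ]) (A : Matrix (Fin n) (Fin n) ℍ[ℝ]) :
    Set ℍ[ℝ] :=
  {z | ∃ x ∈ sphere φ α, z = ∑ i, ∑ j, φ (x i) * A i j * x j}

/-- For every nonstandard involution `φ` there are `q` with `q² = -1`, `φ q = -q`, and for every such
`q` and every `α ≠ 0` fixed by `φ` the matrices with bounded numerical range are: all matrices if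
`n ≤ 1`; the four-parameter family displayed below if `n = 2`; the real scalar matrices if `n ≥ 3`. -/
theorem result (φ : ℍ[ℝ] →ₗ[ℝ] ℍ[ℝ]) (hφ : IsInvolution φ) (hns : ∃ x, φ x ≠ star x) :
    (∃ q : ℍ[ℝ], q * q = -1 ∧ φ q = -q) ∧
    ∀ q : ℍ[ℝ], q * q = -1 → φ q = -q → ∀ α : ℍ[ℝ], φ α = α → α ≠ 0 →
      (∀ n ≤ 1, ∀ A : Matrix (Fin n) (Fin n) ℍ[ℝ], Bornology.IsBounded (numRange φ α A)) ∧
      (∀ A : Matrix (Fin 2) (Fin 2) ℍ[ℝ], Bornology.IsBounded (numRange φ α A) ↔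
        ∃ a b c d : ℝ, A = !![(a : ℍ[ℝ]) + b * q, -(c : ℍ[ℝ]) - d * q;
          (c : ℍ[ℝ]) - d * q, (a : ℍ[ℝ]) - b * q]) ∧
      (∀ n ≥ 3, ∀ A : Matrix (Fin n) (Fin n) ℍ[ℝ], Bornology.IsBounded (numRange φ α A) ↔
        ∃ a : ℝ, A = a • (1 : Matrix (Fin n) (Fin n) ℍ[ℝ])) := by
  refine ⟨?_, ?_⟩
  · obtain ⟨q, h1, h2, -⟩ := Pool.Agent.X89.QN.exists_q hφ hns
    exact ⟨q, h1, h2⟩
  · intro q hq hφq α hα h0
    have hf := Pool.Agent.X89.QN.formula hφ hns hq hφq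
    obtain ⟨l, hl0, hl⟩ := Pool.Agent.X89.QN.exists_root hf hq hα h0
    have sc : ∀ (n : ℕ) (A : Matrix (Fin n) (Fin n) ℍ[ℝ]),
        Bornology.IsBounded (numRange φ α A) ↔ Bornology.IsBounded (Pool.Agent.X89.QN.W φ 1 A) :=
      fun n A => Pool.Agent.X89.QN.scale hφ.1 hf hq hl hl0 A
    refine ⟨?_, ?_, ?_⟩
    · intro n hn A
      exact Pool.Agent.X89.QN.one_bdd h0 hn A
    · intro A
      rw [sc]
      constructor
      · exact Pool.Agent.X89.QN.two_only_if hφ hf hq A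
      · rintro ⟨a, b, c, d, rfl⟩
        exact Pool.Agent.X89.QN.two_if hf hq a b c d
    · intro n hn A
      rw [sc]
      constructor
      · exact Pool.Agent.X89.QN.three_only_if hn hφ hf hq A
      · rintro ⟨a, rfl⟩
        exact Pool.Agent.X89.QN.scalar_if a

end Pool.Agent.Results.MP_dceaed_al.Classification
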